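import Mathlib

set_option autoImplicit false

namespace Pool.Agent.Results.MP_7e7193_an.Full

open Filter Topology

universe u

/-- The set of admissible `δ` in the definition of the modulus `Φ^S(X, ℝ, ε)`. -/
def Adm (X : Type u) [NormedAddCommGroup X] [NormedSpace ℝ X] (ε : ℝ) : Set ℝ :=
  {δ | 0 < δ ∧ ∀ (x : X) (f : StrongDual ℝ X), ‖x‖ = 1 → ‖f‖ = 1 → 1 - ε < f x →
    ∃ (y : X) (g : StrongDual ℝ X), ‖y‖ = 1 ∧ ‖g‖ = 1 ∧ |g y| = 1 ∧ ‖x - y‖ < δ ∧ ‖f - g‖ < δ}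

/-- The modulus `Φ^S(X, ℝ, ε)`. -/
noncomputable def Phi (X : Type u) [NormedAddCommGroup X] [NormedSpace ℝ X] (ε : ℝ) : ℝ :=
  sInf (Adm X ε)

variable {X : Type u} [NormedAddCommGroup X] [NormedSpace ℝ X]

omit [NormedSpace ℝ X] in
lemma ekeland [CompleteSpace X] (C : Set X) (hC : IsClosed C) (f : X → ℝ) (hf : Continuous f)
    (M : ℝ) (hM : ∀ y ∈ C, f y ≤ M) (k : ℝ) (hk : 0 < k) (x : X) (hx : x ∈ C) :
    ∃ y0 ∈ C, k * ‖y0 - x‖ ≤ f y0 - f x ∧ ∀ y ∈ C, f y - f y0 ≤ k * ‖y - y0‖ := by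
  let S : X → Set X := fun y => {z | z ∈ C ∧ k * ‖z - y‖ ≤ f z - f y}
  have hS : ∀ y, IsClosed (S y) := fun y =>
    hC.inter (isClosed_le (f := fun z => k * ‖z - y‖) (g := fun z => f z - f y)
      (by fun_prop) (by fun_prop))
  have tr : ∀ a b c, b ∈ S a → c ∈ S b → c ∈ S a := by
    intro a b c h1 h2
    refine ⟨h2.1, ?_⟩
    have h3 : ‖c - a‖ ≤ ‖c - b‖ + ‖b - a‖ := norm_sub_le_norm_sub_add_norm_sub _ _ _
    have := mul_le_mul_of_nonneg_left h3 hk.le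
    linarith [h1.2, h2.2]
  have rf : ∀ a ∈ C, a ∈ S a := fun a ha => ⟨ha, by simp⟩
  have nx : ∀ (n : ℕ) (y : X), ∃ z, y ∈ C → z ∈ S y ∧ ∀ w ∈ S y, f w ≤ f z + (1 / 2) ^ n := by
    intro n y
    by_cases hy : y ∈ C
    · have hne : (f '' S y).Nonempty := ⟨_, y, rf y hy, rfl⟩
      have hb : BddAbove (f '' S y) := ⟨M, by rintro _ ⟨z, hz, rfl⟩; exact hM z hz.1⟩
      have hp : (0 : ℝ) < (1 / 2) ^ n := by positivity
      obtain ⟨_, ⟨z, hz, rfl⟩, h⟩ := exists_lt_of_lt_csSup hne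
        (show sSup (f '' S y) - (1 / 2) ^ n < sSup (f '' S y) by linarith)
      refine ⟨z, fun _ => ⟨hz, fun w hw => ?_⟩⟩
      have := le_csSup hb ⟨w, hw, rfl⟩
      linarith
    · exact ⟨y, fun h => absurd h hy⟩
  choose nxt hn using nx
  let y : ℕ → X := fun n => Nat.rec x (fun n a => nxt n a) n
  have y0 : y 0 = x := rfl
  have ys : ∀ n, y (n + 1) = nxt n (y n) := fun n => rfl
  have yC : ∀ n, y n ∈ C := by
    intro n
    induction n with
    | zero => exact hx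
    | succ n ih => rw [ys]; exact (hn n _ ih).1.1
  have st : ∀ n, y (n + 1) ∈ S (y n) := fun n => by rw [ys]; exact (hn n _ (yC n)).1
  have ch : ∀ n m, n ≤ m → y m ∈ S (y n) := by
    intro n m h
    induction m, h using Nat.le_induction with
    | base => exact rf _ (yC n)
    | succ m _ ih => exact tr _ _ _ ih (st m)
  have small : ∀ n w, w ∈ S (y (n + 1)) → k * ‖w - y (n + 1)‖ ≤ (1 / 2) ^ n := by
    intro n w hw
    have h1 := (hn n _ (yC n)).2 w (tr _ _ _ (st n) hw)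
    rw [← ys] at h1
    linarith [hw.2]
  have cau : CauchySeq (fun n => y (n + 1)) := by
    apply cauchySeq_of_le_geometric (1 / 2) (1 / k) (by norm_num)
    intro n
    have := small n _ (st (n + 1))
    rw [dist_comm, dist_eq_norm, one_div_mul_eq_div, le_div_iff₀ hk]
    linarith
  obtain ⟨l, hl⟩ := cauchySeq_tendsto_of_complete cau
  have lS : ∀ n, l ∈ S (y n) := fun n =>
    (hS _).mem_of_tendsto hl (eventually_atTop.2 ⟨n, fun m hm => ch n (m + 1) (by omega)⟩)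
  refine ⟨l, (lS 0).1, (lS 0).2, fun w hw => ?_⟩
  by_contra hc
  push Not at hc
  have hwS : ∀ n, k * ‖w - y (n + 1)‖ ≤ (1 / 2) ^ n := fun n =>
    small n w (tr _ _ _ (lS (n + 1)) ⟨hw, hc.le⟩)
  have t1 : Tendsto (fun n => k * ‖w - y (n + 1)‖) atTop (𝓝 (k * ‖w - l‖)) :=
    ((tendsto_const_nhds.sub hl).norm).const_mul k
  have t2 : Tendsto (fun n : ℕ => (1 / 2 : ℝ) ^ n) atTop (𝓝 0) :=
    tendsto_pow_atTop_nhds_zero_of_lt_one (by norm_num) (by norm_num)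
  have h0 := le_of_tendsto_of_tendsto' t1 t2 hwS
  have h1 : ‖w - l‖ ≤ 0 := by
    by_contra h
    push Not at h
    have := mul_pos hk h
    linarith
  have h2 : w = l := sub_eq_zero.1 (norm_le_zero_iff.1 h1)
  rw [h2] at hc
  simp at hc

lemma le_of_ball (G : StrongDual ℝ X) (c : ℝ) (h : ∀ u : X, ‖u‖ < 1 → G u < c) : ‖G‖ ≤ c := by
  by_contra hc
  push Not at hc
  obtain ⟨x, hx, h1⟩ := G.exists_lt_apply_of_lt_opNorm hc
  have a1 := h x hx
  have a2 := h (-x) (by rwa [norm_neg])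
  rw [map_neg] at a2
  rw [Real.norm_eq_abs, lt_abs] at h1
  rcases h1 with h1 | h1 <;> linarith

lemma sep (f : StrongDual ℝ X) (x y0 : X) (hx : ‖x‖ ≤ 1) (h1 : ‖y0‖ ≤ 1) (h2 : ‖y0 - x‖ ≤ 1)
    (k : ℝ) (hk : 0 < k)
    (hmax : ∀ y, ‖y‖ ≤ 1 → ‖y - x‖ ≤ 1 → f y - f y0 ≤ k * ‖y - y0‖) :
    ∃ g h : StrongDual ℝ X, g y0 = ‖g‖ ∧ h (y0 - x) = ‖h‖ ∧ ‖f - (g + h)‖ ≤ k := by
  let A : Set (X × X × ℝ) := Metric.ball 0 1 ×ˢ (Metric.ball 0 1 ×ˢ Set.Iio 0)
  let D : Set (X × X × ℝ) := {p | p.2.1 = p.1 - x ∧ k * ‖p.1 - y0‖ - f (p.1 - y0) ≤ p.2.2}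
  have hA : Convex ℝ A := (convex_ball _ _).prod ((convex_ball _ _).prod (convex_Iio _))
  have hAo : IsOpen A := Metric.isOpen_ball.prod (Metric.isOpen_ball.prod isOpen_Iio)
  have hD : Convex ℝ D := by
    rintro ⟨p1, p2, p3⟩ ⟨hp, hp'⟩ ⟨q1, q2, q3⟩ ⟨hq, hq'⟩ a b ha hb hab
    simp only at hp hp' hq hq'
    have e : a • p1 + b • q1 - y0 = a • (p1 - y0) + b • (q1 - y0) := by
      have : y0 = a • y0 + b • y0 := by rw [← add_smul, hab, one_smul]
      conv_lhs => rw [this]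
      rw [smul_sub, smul_sub]; abel
    constructor
    · show a • p2 + b • q2 = a • p1 + b • q1 - x
      have : x = a • x + b • x := by rw [← add_smul, hab, one_smul]
      conv_rhs => rw [this]
      rw [hp, hq, smul_sub, smul_sub]; abel
    · show k * ‖a • p1 + b • q1 - y0‖ - f (a • p1 + b • q1 - y0) ≤ a * p3 + b * q3
      rw [e, map_add, map_smul, map_smul, smul_eq_mul, smul_eq_mul]
      have n1 : ‖a • (p1 - y0) + b • (q1 - y0)‖ ≤ a * ‖p1 - y0‖ + b * ‖q1 - y0‖ := by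
        refine (norm_add_le _ _).trans ?_
        rw [norm_smul, norm_smul, Real.norm_of_nonneg ha, Real.norm_of_nonneg hb]
      have n2 := mul_le_mul_of_nonneg_left n1 hk.le
      have n3 := mul_le_mul_of_nonneg_left hp' ha
      have n4 := mul_le_mul_of_nonneg_left hq' hb
      nlinarith
  have hdis : Disjoint A D := by
    rw [Set.disjoint_left]
    rintro ⟨p1, p2, p3⟩ ⟨a1, a2, a3⟩ ⟨hp, hp'⟩
    simp only [mem_ball_zero_iff, Set.mem_Iio] at a1 a2 a3 hp hp'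
    have := hmax p1 a1.le (by rw [← hp]; exact a2.le)
    rw [map_sub] at hp'
    linarith
  obtain ⟨F, c, hFA, hFD⟩ := geometric_hahn_banach_open hA hAo hD hdis
  let G : StrongDual ℝ X := F.comp (ContinuousLinearMap.inl ℝ X (X × ℝ))
  let H : StrongDual ℝ X :=
    F.comp ((ContinuousLinearMap.inr ℝ X (X × ℝ)).comp (ContinuousLinearMap.inl ℝ X ℝ))
  let s : ℝ := F (0, 0, 1)
  have hF : ∀ u v r, F (u, v, r) = G u + H v + r * s := by
    intro u v r
    have : ((u, v, r) : X × X × ℝ) = (u, 0, 0) + (0, v, 0) + r • (0, 0, 1) := by simp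
    rw [this, map_add, map_add, map_smul]
    rfl
  have hA' : ∀ u v r, ‖u‖ < 1 → ‖v‖ < 1 → r < 0 → G u + H v + r * s < c := by
    intro u v r hu hv hr
    rw [← hF]
    exact hFA _ ⟨mem_ball_zero_iff.2 hu, mem_ball_zero_iff.2 hv, hr⟩
  have hD' : ∀ w, c ≤ G y0 + H (y0 - x) + (G w + H w) + (k * ‖w‖ - f w) * s := by
    intro w
    have := hFD (y0 + w, y0 + w - x, k * ‖w‖ - f w) ⟨rfl, by simp⟩
    rw [hF, show y0 + w - x = (y0 - x) + w by abel, map_add, map_add] at this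
    linarith
  have hs0 : 0 ≤ s := by
    by_contra hs
    push Not at hs
    have h3 := hA' 0 0 ((|c| + 1) / s) (by simp) (by simp)
      (div_neg_of_pos_of_neg (by positivity) hs)
    rw [div_mul_cancel₀ _ hs.ne] at h3
    simp only [map_zero] at h3
    linarith [le_abs_self c]
  have hA2 : ∀ u v, ‖u‖ < 1 → ‖v‖ < 1 → G u + H v ≤ c := by
    intro u v hu hv
    apply le_of_forall_pos_lt_add
    intro e he
    have h3 := hA' u v (-(e / (s + 1))) hu hv (by simp; positivity)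
    have h4 : e / (s + 1) * s ≤ e := by
      rw [div_mul_eq_mul_div, div_le_iff₀ (by linarith)]; nlinarith
    linarith
  have hGH : ‖G‖ + ‖H‖ ≤ c := by
    apply le_of_forall_pos_lt_add
    intro e he
    have h3 : ∀ v, ‖v‖ < 1 → ‖G‖ ≤ c - H v + e / 3 := fun v hv =>
      le_of_ball G _ fun u hu => by linarith [hA2 u v hu hv]
    have h4 : ‖H‖ ≤ c - ‖G‖ + 2 * e / 3 := le_of_ball H _ fun v hv => by linarith [h3 v hv]
    linarith
  have b1 : G y0 ≤ ‖G‖ := (le_abs_self _).trans (G.unit_le_opNorm y0 h1)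
  have b2 : H (y0 - x) ≤ ‖H‖ := (le_abs_self _).trans (H.unit_le_opNorm _ h2)
  have b3 := hD' 0
  simp only [map_zero, norm_zero, mul_zero, sub_zero, zero_mul, add_zero] at b3
  have e1 : G y0 = ‖G‖ := by linarith
  have e2 : H (y0 - x) = ‖H‖ := by linarith
  have hw : ∀ w, s * f w - (G w + H w) ≤ s * k * ‖w‖ := fun w => by
    have := hD' w
    linarith
  have hs : 0 < s := by
    refine lt_of_le_of_ne hs0 fun hs => ?_
    have z : ∀ w, H w = - G w := by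
      intro w
      have a1 := hw w
      have a2 := hw (-w)
      rw [← hs] at a1 a2
      simp only [map_neg] at a2
      linarith
    have z2 : H = -G := by ext w; simp [z]
    have n1 : ‖H‖ = ‖G‖ := by rw [z2, norm_neg]
    have n2 : G x ≤ ‖G‖ := (le_abs_self _).trans (G.unit_le_opNorm x hx)
    rw [z, map_sub] at e2 b3
    have h3 := hA' 0 0 (-1) (by simp) (by simp) (by norm_num)
    rw [← hs] at h3
    simp only [map_zero] at h3
    linarith
  refine ⟨s⁻¹ • G, s⁻¹ • H, ?_, ?_, ?_⟩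
  · rw [norm_smul, Real.norm_of_nonneg (inv_nonneg.2 hs0)]; simp [e1]
  · rw [norm_smul, Real.norm_of_nonneg (inv_nonneg.2 hs0), ← e2]; simp
  · apply ContinuousLinearMap.opNorm_le_bound _ hk.le
    intro w
    have a1 := hw w
    have a2 := hw (-w)
    simp only [map_neg, norm_neg] at a2
    have e : (f - (s⁻¹ • G + s⁻¹ • H)) w = (s * f w - (G w + H w)) / s := by
      simp; field_simp
    rw [e, Real.norm_eq_abs, abs_div, abs_of_pos hs, div_le_iff₀ hs, abs_le]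
    constructor <;> linarith

lemma normalize (f g : StrongDual ℝ X) (y : X) (hy : ‖y‖ ≤ 1) (hg : g y = ‖g‖) (h0 : 0 < ‖g‖) :
    ‖y‖ = 1 ∧ ∃ g' : StrongDual ℝ X, ‖g'‖ = 1 ∧ g' y = 1 ∧ ‖f - g'‖ ≤ ‖f - g‖ + |‖g‖ - 1| := by
  constructor
  · refine le_antisymm hy ?_
    have := (le_abs_self _).trans (g.le_opNorm y)
    rw [hg] at this
    by_contra hc
    push Not at hc
    nlinarith
  · refine ⟨‖g‖⁻¹ • g, ?_, ?_, ?_⟩
    · rw [norm_smul, norm_inv, norm_norm, inv_mul_cancel₀ h0.ne']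
    · simp [hg, h0.ne']
    · refine (norm_sub_le_norm_sub_add_norm_sub f g _).trans (add_le_add le_rfl (le_of_eq ?_))
      have : g - ‖g‖⁻¹ • g = ((‖g‖ - 1) * ‖g‖⁻¹) • g := by
        rw [sub_mul, mul_inv_cancel₀ h0.ne', one_mul]
        ext w; simp; ring
      rw [this, norm_smul, norm_mul, norm_inv, norm_norm, mul_assoc, inv_mul_cancel₀ h0.ne',
        mul_one, Real.norm_eq_abs]

lemma one_bound [CompleteSpace X] (ε δ : ℝ) (hδ : 1 < δ) : δ ∈ Adm X ε := by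
  refine ⟨by linarith, fun x f hx hf _ => ?_⟩
  obtain ⟨k, hk, hk1, hk2⟩ : ∃ k : ℝ, 0 < k ∧ k < 1 ∧ 1 + 3 * k < δ :=
    ⟨min (1 / 2) ((δ - 1) / 4), lt_min (by norm_num) (by linarith),
      by linarith [min_le_left (1 / 2 : ℝ) ((δ - 1) / 4)],
      by linarith [min_le_right (1 / 2 : ℝ) ((δ - 1) / 4)]⟩
  have fb : ∀ y : X, ‖y‖ ≤ 1 → f y ≤ 1 := fun y hy =>
    (le_abs_self _).trans ((f.unit_le_opNorm y hy).trans hf.le)
  obtain ⟨y0, ⟨h1, h2⟩, -, hmax⟩ := ekeland {y : X | ‖y‖ ≤ 1 ∧ ‖y - x‖ ≤ 1}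
    ((isClosed_le (f := fun y : X => ‖y‖) (g := fun _ => 1) (by fun_prop) (by fun_prop)).inter
      (isClosed_le (f := fun y : X => ‖y - x‖) (g := fun _ => 1) (by fun_prop) (by fun_prop)))
    f f.continuous 1 (fun y hy => fb y hy.1) k hk x ⟨hx.le, by simp⟩
  obtain ⟨g, h, eg, eh, hE⟩ := sep f x y0 hx.le h1 h2 k hk (fun y a b => hmax y ⟨a, b⟩)
  have E1 : ∀ y : X, ‖y‖ ≤ 1 → g y + h y ≤ 1 + k := by
    intro y hy
    have a := (abs_le.1 (((f - (g + h)).unit_le_opNorm y hy).trans hE)).1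
    simp only [sub_apply, add_apply] at a
    linarith [fb y hy]
  have gx := abs_le.1 (g.unit_le_opNorm x hx.le)
  have hx' := abs_le.1 (h.unit_le_opNorm x hx.le)
  have lg : ‖g‖ ≤ 1 + k := by
    have a := E1 y0 h1
    rw [map_sub] at eh
    linarith [hx'.1]
  have lh : ‖h‖ ≤ 1 + k := by
    have a := E1 _ h2
    rw [map_sub g] at a
    linarith [gx.2]
  have lo : 1 - k ≤ ‖g‖ + ‖h‖ := by
    have a : ‖f‖ ≤ ‖f - (g + h)‖ + ‖g + h‖ := by
      simpa using norm_add_le (f - (g + h)) (g + h)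
    linarith [norm_add_le g h]
  have fg : ‖f - g‖ ≤ k + ‖h‖ := by
    have : f - g = (f - (g + h)) + h := by abel
    rw [this]; linarith [norm_add_le (f - (g + h)) h]
  have fh : ‖f - h‖ ≤ k + ‖g‖ := by
    have : f - h = (f - (g + h)) + g := by abel
    rw [this]; linarith [norm_add_le (f - (g + h)) g]
  rcases le_total ‖h‖ ‖g‖ with c | c
  · obtain ⟨n1, g', a1, a2, a3⟩ := normalize f g y0 h1 eg (by linarith)
    refine ⟨y0, g', n1, a1, by rw [a2, abs_one], by rw [norm_sub_rev]; linarith, ?_⟩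
    have : |‖g‖ - 1| + ‖h‖ ≤ 1 + 2 * k := by
      rcases abs_cases (‖g‖ - 1) with a | a <;> linarith [a.1]
    linarith
  · obtain ⟨n1, g', a1, a2, a3⟩ := normalize f h (y0 - x) h2 eh (by linarith)
    refine ⟨-(y0 - x), g', by rw [norm_neg, n1], a1, by rw [map_neg, a2]; simp, ?_, ?_⟩
    · rw [show x - -(y0 - x) = y0 by abel]; linarith
    · have : |‖h‖ - 1| + ‖g‖ ≤ 1 + 2 * k := by
        rcases abs_cases (‖h‖ - 1) with a | a <;> linarith [a.1]
      linarith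

lemma sqrt_bound [CompleteSpace X] (ε δ : ℝ) (hε : 0 < ε) (h1' : √(2 * ε) ≤ 1)
    (hδ : √(2 * ε) < δ) : δ ∈ Adm X ε := by
  have hr : 0 < √(2 * ε) := Real.sqrt_pos.2 (by linarith)
  have hr2 : √(2 * ε) * √(2 * ε) = 2 * ε := Real.mul_self_sqrt (by linarith)
  set r := √(2 * ε)
  refine ⟨by linarith, fun x f hx hf hfx => ?_⟩
  have fb : ∀ y : X, ‖y‖ ≤ 1 → f y ≤ 1 := fun y hy =>
    (le_abs_self _).trans ((f.unit_le_opNorm y hy).trans hf.le)
  obtain ⟨y0, h1, hd, hmax⟩ := ekeland {y : X | ‖y‖ ≤ 1}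
    (isClosed_le (by fun_prop) (by fun_prop))
    f f.continuous 1 (fun y hy => fb y hy) (r / 2) (by linarith) x hx.le
  have h1 : ‖y0‖ ≤ 1 := h1
  obtain ⟨g, h, eg, eh, hE⟩ := sep f 0 y0 (by simp) h1 (by simpa using h1) (r / 2) (by linarith)
    (fun y a _ => hmax y a)
  rw [sub_zero] at eh
  have e : (g + h) y0 = ‖g + h‖ := by
    apply le_antisymm ((le_abs_self _).trans ((g + h).unit_le_opNorm y0 h1))
    rw [add_apply, eg, eh]
    exact norm_add_le _ _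
  have ab : |‖g + h‖ - 1| ≤ r / 2 := by
    rw [← hf, abs_sub_comm]
    exact (abs_norm_sub_norm_le _ _).trans hE
  obtain ⟨n1, g', a1, a2, a3⟩ := normalize f (g + h) y0 h1 e (by linarith [(abs_le.1 ab).1])
  refine ⟨y0, g', n1, a1, by rw [a2, abs_one], ?_, by linarith⟩
  rw [norm_sub_rev]
  have := fb y0 h1
  by_contra hc
  push Not at hc
  nlinarith

theorem result (X : Type u) [NormedAddCommGroup X] [NormedSpace ℝ X] [CompleteSpace X]
    (ε : ℝ) (hε : 0 < ε) :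
    (∀ δ : ℝ, min (√(2 * ε)) 1 < δ → δ ∈ Adm X ε) ∧ Phi X ε ≤ min (√(2 * ε)) 1 := by
  have key : ∀ δ : ℝ, min (√(2 * ε)) 1 < δ → δ ∈ Adm X ε := by
    intro δ hδ
    rcases le_total (√(2 * ε)) 1 with c | c
    · rw [min_eq_left c] at hδ
      exact sqrt_bound ε δ hε c hδ
    · rw [min_eq_right c] at hδ
      exact one_bound ε δ hδ
  refine ⟨key, le_of_forall_gt_imp_ge_of_dense fun δ hδ => ?_⟩
  exact csInf_le ⟨0, fun a ha => ha.1.le⟩ (key δ hδ)

end Pool.Agent.Results.MP_7e7193_an.Full
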